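import Mathlib
import Pool.Agent.Lib.helper17.PB2

set_option autoImplicit false

namespace Pool.Agent.Results.MP_ff24f1_gt.No

open Set Filter Topology TopologicalSpace Cardinal

/-- a base of clopen sets with the nesting property -/
def PrettyBase {X : Type} [TopologicalSpace X] (B : Set (Set X)) : Prop :=
  (∀ U ∈ B, IsClopen U) ∧ IsTopologicalBasis B ∧
    ∀ C D : Set (Set X), C ⊆ B → C.Countable → D ⊆ B → (∀ U ∈ C, ∀ V ∈ D, Disjoint U V) →
      ∃ W ∈ B, (∀ U ∈ C, U ⊆ W) ∧ ∀ V ∈ D, Disjoint W V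

/-- the cotopology of the base is compact -/
def Cocompact {X : Type} [TopologicalSpace X] (B : Set (Set X)) : Prop :=
  @CompactSpace X (generateFrom ((fun U : Set X => (closure U)ᶜ) '' B))

open Pool.Agent.Lib.helper17.PB

abbrev K : Type := ℝ × Set ℝ
abbrev A : Type := ℝ × K × ℝ

lemma reg : (Order.succ 𝔠 : Cardinal.{0}).IsRegular := isRegular_succ aleph0_le_continuum

def Z : (ℝ × ℝ) ⊕ K → Set A
  | .inl p => {x | x.1 = p.1 ∧ x.2.2 = p.2}
  | .inr k => {x | x.2.1 = k}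

noncomputable def Φ : (ℝ × ℝ) ⊕ K → Filter A
  | .inl p => map (fun k => (p.1, k, p.2)) (cocardinal K reg)
  | .inr k => map (fun z : ℝ × ℝ => (z.1, k, z.2)) (𝓝 k.1 ×ˢ cocountable)

lemma fib {E : Set K} (h : E ∈ cocardinal K reg) (c : ℝ) : ∃ w, (c, w) ∈ E := by
  by_contra e
  push Not at e
  have : #(Set ℝ) ≤ #(Eᶜ : Set K) :=
    mk_le_of_injective (f := fun w => ⟨(c, w), e w⟩) fun _ _ q => by simpa using q
  have k := this.trans_lt (mem_cocardinal.1 h)
  rw [Order.lt_succ_iff, mk_set, mk_real] at k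
  exact (cantor _).not_ge k

lemma nc : (cocountable : Filter ℝ).NeBot := ⟨fun e => not_countable_univ (α := ℝ)
  (by simpa using mem_cocountable.1 (e ▸ mem_bot : (∅ : Set ℝ) ∈ cocountable))⟩

lemma ad : AD Z Φ := by
  have := nc
  refine ⟨?_, ?_, ?_, ?_⟩
  · rintro (p | k)
    · have : (cocardinal K reg).NeBot := ⟨fun e => (fib (e ▸ mem_bot : ∅ ∈ _) 0).elim fun _ q => q⟩
      exact map_neBot
    · exact map_neBot
  · rintro (p | k) S hS <;> have c := mem_cocountable.1 hS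
    · refine mem_map.2 (mem_of_superset (compl_mem_cocardinal_of_card_lt
        (s := (fun x : A => x.2.1) '' Sᶜ) ?_) fun z hz => not_not.1 fun q => hz ⟨_, q, rfl⟩)
      exact (le_aleph0_iff_set_countable.2 (c.image _)).trans_lt
        (aleph0_le_continuum.trans_lt (Order.lt_succ _))
    · exact mem_map.2 (mem_prod_iff.2 ⟨univ, univ_mem, ((fun x : A => x.2.2) '' Sᶜ)ᶜ,
        mem_cocountable.2 (by rw [compl_compl]; exact c.image _),
        fun z hz => not_not.1 fun q => hz.2 ⟨_, q, rfl⟩⟩)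
  · rintro (p | k)
    · exact mem_map.2 (Eventually.of_forall fun _ => ⟨rfl, rfl⟩)
    · exact mem_map.2 (Eventually.of_forall fun _ => rfl)
  · rintro (p | k) (p' | k') h
    · exact countable_empty.mono fun x hx => h (congrArg _
        (Prod.ext (hx.1.1.symm.trans hx.2.1) (hx.1.2.symm.trans hx.2.2)))
    · exact (countable_singleton (p.1, k', p.2)).mono fun x hx =>
        show x = (p.1, k', p.2) from Prod.ext hx.1.1 (Prod.ext hx.2 hx.1.2)
    · exact (countable_singleton (p'.1, k, p'.2)).mono fun x hx =>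
        show x = (p'.1, k, p'.2) from Prod.ext hx.2.1 (Prod.ext hx.1 hx.2.2)
    · exact countable_empty.mono fun x hx => h (congrArg _ (Eq.trans (Eq.symm hx.1) hx.2))

lemma key (S : Set A) (h : ∀ i, S ∈ Φ i ∨ Sᶜ ∈ Φ i) (h0 : ∀ x : A, x.1 = 0 → x ∈ S)
    (h1 : ∀ x : A, x.1 = 1 → x ∉ S) : False := by
  have := nc
  have E : ∀ᶠ k in cocardinal K reg, ∀ p : ℝ × ℝ, (p.1, k, p.2) ∈ S ↔ S ∈ Φ (.inl p) := by
    refine (eventually_cardinal_forall (c := Order.succ 𝔠) (by simp [mk_real])).2 fun p => ?_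
    rcases h (.inl p) with e | e
    · exact mem_of_superset (mem_map.1 e) fun k hk => ⟨fun _ => e, fun _ => hk⟩
    · have := ad.ne (.inl p)
      exact mem_of_superset (mem_map.1 e) fun k hk =>
        ⟨fun q => (hk q).elim, fun q => (compl_notMem q e).elim⟩
  let T : Set ℝ := {s | {a | S ∈ Φ (.inl (s, a))} ∈ cocountable}
  have k : ∀ c, T ∈ 𝓝 c ∨ Tᶜ ∈ 𝓝 c := fun c => by
    obtain ⟨w, hw⟩ := fib E c
    refine (h (.inr (c, w))).imp (fun e => ?_) fun e => ?_ <;>
      obtain ⟨I, i1, B, b1, q⟩ := mem_prod_iff.1 (mem_map.1 e)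
    · exact mem_of_superset i1 fun s hs => mem_of_superset b1 fun a ha =>
        (hw (s, a)).1 (q (mk_mem_prod hs ha))
    · refine mem_of_superset i1 fun s hs t => ?_
      obtain ⟨a, a1, a2⟩ := Filter.nonempty_of_mem (inter_mem b1 t)
      exact q (mk_mem_prod hs a1) ((hw (s, a)).2 a2)
  have c : IsClopen T := ⟨⟨isOpen_iff_mem_nhds.2 fun c hc => (k c).resolve_left fun e =>
    hc (mem_of_mem_nhds e)⟩, isOpen_iff_mem_nhds.2 fun c hc => (k c).resolve_right fun e =>
    mem_of_mem_nhds e hc⟩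
  have t0 : (0 : ℝ) ∈ T := show {a | S ∈ Φ (.inl (0, a))} ∈ cocountable from univ_mem' fun a =>
    show S ∈ Φ (.inl (0, a)) from mem_map.2 (univ_mem' fun _ => h0 _ rfl)
  have t1 : (1 : ℝ) ∈ T := c.eq_univ ⟨0, t0⟩ ▸ mem_univ _
  obtain ⟨a, ha⟩ := Filter.nonempty_of_mem
    (show {a | S ∈ Φ (.inl (1, a))} ∈ cocountable from t1)
  obtain ⟨w, hw⟩ := fib (mem_map.1 ha) 0
  exact h1 _ rfl hw

theorem result : ∃ (X : Type) (_ : TopologicalSpace X), T35Space X ∧
    (∃ B : Set (Set X), PrettyBase B ∧ Cocompact B) ∧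
    ¬ IsTopologicalBasis {U : Set (StoneCech X) | IsClopen U} := by
  have g := good_LA ad
  refine ⟨X (LA Z Φ), inferInstance, inferInstance,
    ⟨_, ⟨clopen_basis, basis, pretty g⟩, cocompact g⟩, fun hb => ?_⟩
  let φ : ℝ → Icc (0 : ℝ) 1 := projIcc 0 1 zero_le_one
  have hφ : Continuous fun s => (φ s : ℝ) := continuous_subtype_val.comp continuous_projIcc
  obtain ⟨G, g1, g2⟩ := extend (L := LA Z Φ) (g := fun x : A => (φ x.1 : ℝ))
    (conv ad (c := Sum.elim (fun p => φ p.1) fun k => φ k.1) (by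
      rintro (p | k)
      · exact tendsto_map'_iff.2 tendsto_const_nhds
      · exact tendsto_map'_iff.2 (hφ.continuousAt.tendsto.comp tendsto_fst)) fun x => (φ x.1).2)
  have g3 : ∀ x, G (pt g x) = φ x.1 := fun x =>
    haveI := (pt g x).2.1
    tendsto_nhds_unique (g2 (pt g x)) (tendsto_pure_nhds _ x)
  have hf : Continuous (φ ∘ G) := continuous_projIcc.comp g1
  have hF := continuous_stoneCechExtend hf
  have := totallySeparatedSpace_of_t0_of_basis_clopen hb
  obtain ⟨U, u1, u2, u3⟩ := exists_clopen_of_closed_subset_open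
    (Z := stoneCechExtend hf ⁻¹' {φ 0}) (U := stoneCechExtend hf ⁻¹' {φ 1}ᶜ)
    (isClosed_singleton.preimage hF) (isOpen_compl_singleton.preimage hF) fun y hy e => by
      simpa [φ] using (Eq.symm hy).trans e
  have u := u1.preimage (continuous_stoneCechUnit (α := X (LA Z Φ)))
  refine key (pt g ⁻¹' (stoneCechUnit ⁻¹' U)) (fun i => ?_) (fun x hx => u2 ?_) fun x hx e => u3 e ?_
  · have t := tendsto_pt g ⟨_, isPt_A ad i⟩
    exact (em _).imp (fun e => t (u.2.mem_nhds e)) fun e => t (u.1.isOpen_compl.mem_nhds e)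
  · simp [stoneCechExtend_stoneCechUnit, g3, hx, φ]
  · simp [stoneCechExtend_stoneCechUnit, g3, hx, φ]

end Pool.Agent.Results.MP_ff24f1_gt.No
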